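import Mathlib

/-!
# Limited-visibility search on Hamming graphs

`3 k ≤ n` cops can never guarantee to see the robber in the `(d-1)`-visibility game on `H(d,n)`,
for every `d ≥ 1`.
-/

namespace Pool.Agent.Results.MP_b85c6a_co.Hamming

open Finset

/-- The Hamming graph `H(d,n)`: two `d`-tuples are adjacent when they differ in exactly one
coordinate. -/
def H (d n : ℕ) : SimpleGraph (Fin d → Fin n) where
  Adj x y := hammingDist x y = 1
  symm := by
    constructor
    intro x y h
    rw [hammingDist_comm]
    exact h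
  loopless := ⟨fun x h => by rw [hammingDist_self] at h; exact zero_ne_one h⟩

/-- One move: stay put or move to a neighbour. -/
def Step {V : Type} (G : SimpleGraph V) (u v : V) : Prop := u = v ∨ G.Adj u v

/-- `u` and `v` are at distance at most `l`: some walk of length at most `l` joins them. -/
def Near {V : Type} (G : SimpleGraph V) (l : ℕ) (u v : V) : Prop := ∃ w : G.Walk u v, w.length ≤ l

/-- `k` cops can guarantee to see the robber in the `l`-visibility game on `G` within finitely
many rounds. Before they see the robber the cops get no information, so their play is a sequence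
`p` of positions: `p 0` is the initial position and `p (t + 1)` the position after their move in
round `t + 1`. The robber, who anticipates the play of the cops, is at `x 0` initially and at
`x (t + 1)` after his move in round `t + 1`. -/
def CopsWin {V : Type} (G : SimpleGraph V) (l k : ℕ) : Prop :=
  ∃ p : ℕ → Fin k → V, (∀ t j, Step G (p t j) (p (t + 1) j)) ∧
    ∃ T : ℕ, ∀ x : ℕ → V, (∀ t, Step G (x t) (x (t + 1))) →
      ∃ t ≤ T, ∃ j, Near G l (p t j) (x t) ∨ Near G l (p (t + 1) j) (x t)

/-- The least number of cops that can guarantee to see the robber. -/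
noncomputable def searchNumber {V : Type} (G : SimpleGraph V) (l : ℕ) : ℕ :=
  sInf {k : ℕ | CopsWin G l k}

/-! ## Scheduling -/

/-- A Hall type lemma for intervals. -/
lemma schedule {J : Type} [Fintype J] [DecidableEq J] (s e : J → ℕ)
    (h : ∀ a b, a ≤ b + 1 → (univ.filter (fun j => a ≤ s j ∧ e j ≤ b)).card ≤ b + 1 - a)
    (hs : ∀ j, 1 ≤ s j) :
    ∃ f : J → ℕ, Function.Injective f ∧ ∀ j, s j ≤ f j ∧ f j ≤ e j := by
  classical
  have hse : ∀ j, s j ≤ e j := by
    intro j
    by_contra hcon
    push Not at hcon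
    have h1 := h (s j) (s j - 1) (by have := hs j; omega)
    have h2 : 0 < (univ.filter (fun i => s j ≤ s i ∧ e i ≤ s j - 1)).card := by
      rw [card_pos]
      exact ⟨j, by rw [mem_filter]; exact ⟨mem_univ _, le_refl _, by omega⟩⟩
    have := hs j
    omega
  have hall : ∀ S : Finset J, S.card ≤ (S.biUnion (fun j => Icc (s j) (e j))).card := by
    intro S
    induction S using Finset.strongInduction with
    | H S ih =>
      rcases S.eq_empty_or_nonempty with rfl | hne
      · simp
      obtain ⟨j0, hj0, hmin⟩ := S.exists_min_image s hne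
      set U := S.biUnion (fun j => Icc (s j) (e j)) with hU
      have hex : ∃ c, s j0 ≤ c ∧ c + 1 ∉ U := by
        obtain ⟨N, hN⟩ := U.exists_nat_subset_range
        refine ⟨max (s j0) N, le_max_left _ _, ?_⟩
        intro hmem
        have := mem_range.1 (hN hmem)
        have := le_max_right (s j0) N
        omega
      set b := Nat.find hex with hb
      have hb1 : s j0 ≤ b := (Nat.find_spec hex).1
      have hb2 : b + 1 ∉ U := (Nat.find_spec hex).2
      have hsub : Icc (s j0) b ⊆ U := by
        intro x hx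
        rw [mem_Icc] at hx
        rcases Nat.eq_or_lt_of_le hx.1 with h1 | h1
        · rw [← h1, hU, mem_biUnion]
          exact ⟨j0, hj0, by rw [mem_Icc]; exact ⟨le_refl _, hse j0⟩⟩
        · have h2 := Nat.find_min hex (m := x - 1) (by omega)
          push Not at h2
          have h3 := h2 (by omega)
          rwa [Nat.sub_add_cancel (by omega)] at h3
      have hsplit : ∀ j ∈ S, e j ≤ b ∨ b + 2 ≤ s j := by
        intro j hj
        by_contra hcon
        push Not at hcon
        apply hb2
        rw [hU, mem_biUnion]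
        exact ⟨j, hj, by rw [mem_Icc]; omega⟩
      let S2 := S.filter (fun j => b + 2 ≤ s j)
      have hS2 : S2 ⊂ S := by
        rw [ssubset_iff_of_subset (filter_subset _ _)]
        exact ⟨j0, hj0, by rw [mem_filter]; omega⟩
      have h1 := ih S2 hS2
      have h2 : (S.filter (fun j => ¬ b + 2 ≤ s j)).card ≤ b + 1 - s j0 := by
        refine le_trans (card_le_card ?_) (h (s j0) b (by omega))
        intro j hj
        rw [mem_filter] at hj ⊢
        refine ⟨mem_univ _, hmin j hj.1, ?_⟩
        rcases hsplit j hj.1 with h3 | h3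
        · exact h3
        · exact absurd h3 hj.2
      have h3 : (S.filter (fun j => b + 2 ≤ s j)).card +
          (S.filter (fun j => ¬ b + 2 ≤ s j)).card = S.card :=
        card_filter_add_card_filter_not _
      have h4 : (Icc (s j0) b).card + (S2.biUnion (fun j => Icc (s j) (e j))).card ≤ U.card := by
        rw [← card_union_of_disjoint]
        · apply card_le_card
          apply union_subset hsub
          rw [hU]
          exact biUnion_subset_biUnion_of_subset_left _ (filter_subset _ _)
        · rw [disjoint_left]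
          intro x hx hx2
          rw [mem_Icc] at hx
          rw [mem_biUnion] at hx2
          obtain ⟨j, hj, hx3⟩ := hx2
          rw [mem_filter] at hj
          rw [mem_Icc] at hx3
          omega
      rw [Nat.card_Icc] at h4
      have h5 : S2.card = (S.filter (fun j => b + 2 ≤ s j)).card := rfl
      omega
  obtain ⟨f, hf, hf2⟩ := (all_card_le_biUnion_card_iff_exists_injective _).1 hall
  exact ⟨f, hf, fun j => by have := hf2 j; rw [mem_Icc] at this; exact this⟩

/-- Counting multiples. -/
lemma count_mult (k x y N : ℕ) (hk : 0 < k) :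
    let c := ((range N).filter (fun m => x < (m + 1) * k ∧ (m + 2) * k ≤ y)).card
    c = 0 ∨ k * c + 1 ≤ y - x := by
  intro c
  have hsub : (range N).filter (fun m => x < (m + 1) * k ∧ (m + 2) * k ≤ y) ⊆
      Ico (x / k) (y / k - 1) := by
    intro m hm
    rw [mem_filter] at hm
    rw [mem_Ico]
    constructor
    · have : x / k < m + 1 := (Nat.div_lt_iff_lt_mul hk).2 hm.2.1
      omega
    · have : m + 2 ≤ y / k := (Nat.le_div_iff_mul_le hk).2 hm.2.2
      omega
  have hc : c ≤ y / k - 1 - x / k := by
    have := card_le_card hsub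
    rwa [Nat.card_Ico] at this
  rcases Nat.eq_zero_or_pos c with h | h
  · exact Or.inl h
  · right
    have h1 : k * (y / k) ≤ y := Nat.mul_div_le y k
    have h2 : x < k * (x / k) + k := by
      have := Nat.lt_mul_div_succ x hk
      rwa [mul_add, mul_one] at this
    have h3 : c + x / k + 1 ≤ y / k := by omega
    have h4 : k * (c + x / k + 1) ≤ k * (y / k) := Nat.mul_le_mul_left k h3
    have h5 : k * (c + x / k + 1) = k * c + k * (x / k) + k := by ring
    omega

/-- The schedule of the robber. `κ i t` is the number of changes of coordinate `i` up to time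
`t`. -/
lemma exists_schedule (d k L : ℕ) (hk : 0 < k) (κ : Fin d → ℕ → ℕ) (hmono : ∀ i, Monotone (κ i))
    (h0 : ∀ i, κ i 0 = 0) (hstep : ∀ t, ∑ i, (κ i (t + 1) - κ i t) ≤ k) :
    ∃ (M : Fin d → ℕ) (τ : Fin d → ℕ → ℕ),
      (∀ i, τ i 0 = 0) ∧
      (∀ i m, m < M i → τ i m < τ i (m + 1)) ∧
      (∀ i m, 1 ≤ m → m ≤ M i → τ i m < L) ∧
      (∀ i m, m < M i → κ i (τ i (m + 1)) < κ i (τ i m) + 2 * k) ∧
      (∀ i, κ i L < κ i (τ i (M i)) + 2 * k) ∧
      (∀ i i' m m', 1 ≤ m → m ≤ M i → 1 ≤ m' → m' ≤ M i' → τ i m = τ i' m' → i = i') := by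
  classical
  -- jobs
  let M : Fin d → ℕ := fun i => κ i L / k - 1
  let J := Σ i : Fin d, Fin (M i)
  let first : Fin d → ℕ → ℕ := fun i y => sInf {t | y ≤ κ i t}
  let s : J → ℕ := fun j => first j.1 ((j.2.val + 1) * k)
  let e : J → ℕ := fun j => first j.1 ((j.2.val + 2) * k) - 1
  have hML : ∀ i (m : Fin (M i)), (m.val + 2) * k ≤ κ i L := by
    intro i m
    have h1 : m.val < κ i L / k - 1 := m.2
    have h2 : m.val + 2 ≤ κ i L / k := by omega
    exact (Nat.le_div_iff_mul_le hk).1 h2
  have hne : ∀ i y, y ≤ κ i L → y ≤ κ i (first i y) := by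
    intro i y hy
    exact Nat.sInf_mem (s := {t | y ≤ κ i t}) ⟨L, hy⟩
  have hlt : ∀ i y t, t < first i y → κ i t < y := by
    intro i y t ht
    have := Nat.notMem_of_lt_sInf ht
    simpa using this
  have hfirstL : ∀ i y, y ≤ κ i L → first i y ≤ L := by
    intro i y hy
    exact Nat.sInf_le hy
  have hpos : ∀ i y, 0 < y → y ≤ κ i L → 0 < first i y := by
    intro i y hy hyL
    by_contra hcon
    have h1 : first i y = 0 := by omega
    have h2 := hne i y hyL
    rw [h1, h0] at h2
    omega
  have htel : ∀ a b, ∑ i, (κ i (a + b) - κ i a) ≤ b * k := by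
    intro a b
    induction b with
    | zero => simp
    | succ b ih =>
      calc ∑ i, (κ i (a + (b + 1)) - κ i a)
          ≤ ∑ i, ((κ i (a + b) - κ i a) + (κ i (a + b + 1) - κ i (a + b))) := by
            apply sum_le_sum
            intro i _
            have h1 := hmono i (Nat.le_add_right a b)
            have h2 := hmono i (Nat.le_add_right (a + b) 1)
            rw [← add_assoc]
            omega
        _ = ∑ i, (κ i (a + b) - κ i a) + ∑ i, (κ i (a + b + 1) - κ i (a + b)) :=
            sum_add_distrib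
        _ ≤ b * k + k := add_le_add ih (hstep _)
        _ = (b + 1) * k := by ring
  have hs1 : ∀ j : J, 1 ≤ s j := by
    intro j
    have h1 := hML j.1 j.2
    apply hpos j.1 _ (by positivity)
    refine le_trans ?_ h1
    apply Nat.mul_le_mul_right
    omega
  have hcount : ∀ a b, 1 ≤ a → a ≤ b + 1 →
      (univ.filter (fun j : J => a ≤ s j ∧ e j ≤ b)).card ≤ b + 1 - a := by
    intro a b ha hab
    by_contra hcon
    push Not at hcon
    let cnt : Fin d → ℕ := fun i => ((range (M i)).filter
      (fun m => κ i (a - 1) < (m + 1) * k ∧ (m + 2) * k ≤ κ i (b + 1))).card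
    have h1 : (univ.filter (fun j : J => a ≤ s j ∧ e j ≤ b)).card ≤ ∑ i, cnt i := by
      calc (univ.filter (fun j : J => a ≤ s j ∧ e j ≤ b)).card
          ≤ ((univ : Finset (Fin d)).sigma (fun i => (range (M i)).filter
              (fun m => κ i (a - 1) < (m + 1) * k ∧ (m + 2) * k ≤ κ i (b + 1)))).card := by
            apply card_le_card_of_injOn (fun j : J => (⟨j.1, j.2.val⟩ : Σ _ : Fin d, ℕ))
            · rintro ⟨i, m⟩ hj
              rw [mem_coe, mem_filter] at hj
              rw [mem_coe, mem_sigma, mem_filter]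
              refine ⟨mem_univ _, mem_range.2 m.2, ?_, ?_⟩
              · apply hlt i
                have : a ≤ first i ((m.val + 1) * k) := hj.2.1
                show a - 1 < first i ((m.val + 1) * k)
                omega
              · have h3 : first i ((m.val + 2) * k) - 1 ≤ b := hj.2.2
                have h4 := hne i _ (hML i m)
                exact h4.trans (hmono i (by omega))
            · rintro ⟨i, m⟩ _ ⟨i', m'⟩ _ hij
              have h5 : (⟨i, m.val⟩ : Σ _ : Fin d, ℕ) = ⟨i', m'.val⟩ := hij
              have h6 : i = i' := congrArg Sigma.fst h5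
              subst h6
              have h7 : m.val = m'.val := by
                have := congrArg Sigma.snd h5
                exact this
              rw [Fin.ext h7]
        _ = ∑ i, cnt i := card_sigma _ _
    have h2 : ∀ i, cnt i = 0 ∨ k * cnt i + 1 ≤ κ i (b + 1) - κ i (a - 1) :=
      fun i => count_mult k _ _ _ hk
    have h3 : 0 < ∑ i, cnt i := by omega
    have h4 : k * (∑ i, cnt i) < ∑ i, (κ i (b + 1) - κ i (a - 1)) := by
      rw [mul_sum]
      obtain ⟨i, hi, hi2⟩ := exists_ne_zero_of_sum_ne_zero h3.ne'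
      apply sum_lt_sum
      · intro i _
        rcases h2 i with h | h
        · rw [h]; omega
        · omega
      · refine ⟨i, mem_univ _, ?_⟩
        rcases h2 i with h | h
        · exact absurd h hi2
        · omega
    have h5 := htel (a - 1) (b + 1 - (a - 1))
    rw [show a - 1 + (b + 1 - (a - 1)) = b + 1 by omega] at h5
    have h6 : k * (∑ i, cnt i) < k * (b + 1 - (a - 1)) := by
      calc _ < _ := h4
        _ ≤ (b + 1 - (a - 1)) * k := h5
        _ = _ := mul_comm _ _
    have h7 := lt_of_mul_lt_mul_left h6 (Nat.zero_le _)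
    omega
  obtain ⟨f, hfinj, hf⟩ := schedule s e (by
    intro a b hab
    rcases Nat.eq_zero_or_pos a with rfl | ha
    · have h1 : (univ.filter (fun j : J => 0 ≤ s j ∧ e j ≤ b)) =
          (univ.filter (fun j : J => 1 ≤ s j ∧ e j ≤ b)) := by
        apply filter_congr
        intro j _
        have := hs1 j
        constructor
        · rintro ⟨_, h⟩; exact ⟨this, h⟩
        · rintro ⟨_, h⟩; exact ⟨Nat.zero_le _, h⟩
      rw [h1]
      refine (hcount 1 b le_rfl (by omega)).trans ?_
      omega
    · exact hcount a b ha hab) hs1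
  -- the switching times
  let τ : Fin d → ℕ → ℕ := fun i m =>
    if h : 1 ≤ m ∧ m - 1 < M i then f ⟨i, ⟨m - 1, h.2⟩⟩ else 0
  have hτ0 : ∀ i, τ i 0 = 0 := by
    intro i
    show (if h : 1 ≤ 0 ∧ 0 - 1 < M i then f ⟨i, ⟨0 - 1, h.2⟩⟩ else 0) = 0
    rw [dif_neg (by omega)]
  have hτs : ∀ i m (hm : m < M i), τ i (m + 1) = f ⟨i, ⟨m, hm⟩⟩ := by
    intro i m hm
    show (if h : 1 ≤ m + 1 ∧ m + 1 - 1 < M i then f ⟨i, ⟨m + 1 - 1, h.2⟩⟩ else 0) = _
    rw [dif_pos ⟨by omega, by simpa using hm⟩]
    rfl
  have hlow : ∀ i m (hm : m < M i), (m + 1) * k ≤ κ i (τ i (m + 1)) := by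
    intro i m hm
    rw [hτs i m hm]
    have h1 : first i ((m + 1) * k) ≤ f ⟨i, ⟨m, hm⟩⟩ := (hf ⟨i, ⟨m, hm⟩⟩).1
    have h2 : (m + 1) * k ≤ κ i L :=
      le_trans (Nat.mul_le_mul_right k (show m + 1 ≤ m + 2 by omega)) (hML i ⟨m, hm⟩)
    exact (hne i _ h2).trans (hmono i h1)
  have hfirst : ∀ i m (hm : m < M i), τ i (m + 1) < first i ((m + 2) * k) := by
    intro i m hm
    rw [hτs i m hm]
    have h1 : f ⟨i, ⟨m, hm⟩⟩ ≤ first i ((m + 2) * k) - 1 := (hf ⟨i, ⟨m, hm⟩⟩).2
    have h2 : 0 < first i ((m + 2) * k) := hpos i _ (by positivity) (hML i ⟨m, hm⟩)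
    omega
  have hhigh : ∀ i m (hm : m < M i), κ i (τ i (m + 1)) < (m + 2) * k := by
    intro i m hm
    exact hlt i _ _ (hfirst i m hm)
  refine ⟨M, τ, hτ0, ?_, ?_, ?_, ?_, ?_⟩
  · intro i m hm
    rcases Nat.eq_zero_or_pos m with rfl | hm0
    · rw [hτ0, hτs i 0 hm]
      have h1 := (hf ⟨i, ⟨0, hm⟩⟩).1
      have h2 := hs1 ⟨i, ⟨0, hm⟩⟩
      omega
    · by_contra hcon
      push Not at hcon
      have h1 := hmono i hcon
      have h2 := hlow i m hm
      have h3 := hhigh i (m - 1) (by omega)
      rw [show m - 1 + 1 = m by omega, show m - 1 + 2 = m + 1 by omega] at h3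
      omega
  · intro i m hm1 hm2
    have h1 := hfirst i (m - 1) (by omega)
    rw [show m - 1 + 1 = m by omega] at h1
    exact lt_of_lt_of_le h1 (hfirstL i _ (hML i ⟨m - 1, by omega⟩))
  · intro i m hm
    have h1 := hhigh i m hm
    rcases Nat.eq_zero_or_pos m with rfl | hm0
    · rw [hτ0, h0]
      omega
    · have h2 := hlow i (m - 1) (by omega)
      rw [show m - 1 + 1 = m by omega] at h2
      have h3 : (m + 2) * k = m * k + 2 * k := by ring
      omega
  · intro i
    have h1 : κ i L < (κ i L / k) * k + k := by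
      have := Nat.lt_div_mul_add (a := κ i L) hk
      exact this
    rcases Nat.eq_zero_or_pos (M i) with hM | hM
    · rw [hM, hτ0, h0]
      have h2 : κ i L / k - 1 = 0 := hM
      have h3 : κ i L / k ≤ 1 := by omega
      have h4 := Nat.mul_le_mul_right k h3
      omega
    · have h2 := hlow i (M i - 1) (by omega)
      rw [show M i - 1 + 1 = M i by omega] at h2
      have h3 : M i = κ i L / k - 1 := rfl
      have h4 : κ i L / k = M i + 1 := by omega
      rw [h4] at h1
      have h5 : (M i + 1) * k = M i * k + k := by ring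
      omega
  · intro i i' m m' h1 h2 h3 h4 h5
    have h6 := hτs i (m - 1) (by omega)
    have h7 := hτs i' (m' - 1) (by omega)
    rw [show m - 1 + 1 = m by omega] at h6
    rw [show m' - 1 + 1 = m' by omega] at h7
    rw [h6, h7] at h5
    exact congrArg Sigma.fst (hfinj h5)

/-! ## The robber wins -/

section Robber

variable {d n k : ℕ} (p : ℕ → Fin k → (Fin d → Fin n))

/-- The number of changes of coordinate `i` up to time `t`. -/
def kap (i : Fin d) : ℕ → ℕ
  | 0 => 0
  | t + 1 => kap i t + (univ.filter (fun j => p t j i ≠ p (t + 1) j i)).card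

lemma kap_mono (i : Fin d) : Monotone (kap p i) :=
  monotone_nat_of_le_succ (fun t => Nat.le_add_right _ _)

/-- The values of coordinate `i` occupied during `[a, b]`. -/
def occ (i : Fin d) (a b : ℕ) : Finset (Fin n) :=
  (Icc a b).biUnion (fun t => univ.image (fun j => p t j i))

lemma occ_card (i : Fin d) (a b : ℕ) : (occ p i a (a + b)).card + kap p i a ≤
    k + kap p i (a + b) := by
  induction b with
  | zero =>
    have : (occ p i a (a + 0)).card ≤ k := by
      unfold occ
      rw [add_zero, Icc_self, singleton_biUnion]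
      refine card_image_le.trans ?_
      simp
    rw [add_zero] at this ⊢
    omega
  | succ b ih =>
    have h1 : occ p i a (a + (b + 1)) ⊆ occ p i a (a + b) ∪
        (univ.filter (fun j => p (a + b) j i ≠ p (a + b + 1) j i)).image
          (fun j => p (a + b + 1) j i) := by
      intro v hv
      unfold occ at hv
      rw [mem_biUnion] at hv
      obtain ⟨t, ht, hv⟩ := hv
      rw [mem_image] at hv
      obtain ⟨j, -, rfl⟩ := hv
      rw [mem_Icc] at ht
      rw [mem_union]
      by_cases h2 : t ≤ a + b
      · left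
        unfold occ
        rw [mem_biUnion]
        exact ⟨t, by rw [mem_Icc]; exact ⟨ht.1, h2⟩, by rw [mem_image]; exact ⟨j, mem_univ _, rfl⟩⟩
      · have h3 : t = a + b + 1 := by omega
        subst h3
        by_cases h4 : p (a + b) j i = p (a + b + 1) j i
        · left
          unfold occ
          rw [mem_biUnion]
          refine ⟨a + b, by rw [mem_Icc]; omega, ?_⟩
          rw [mem_image]
          exact ⟨j, mem_univ _, h4⟩
        · right
          rw [mem_image]
          exact ⟨j, by rw [mem_filter]; exact ⟨mem_univ _, h4⟩, rfl⟩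
    have h2 := (card_le_card h1).trans (card_union_le _ _)
    have h3 : ((univ.filter (fun j => p (a + b) j i ≠ p (a + b + 1) j i)).image
          (fun j => p (a + b + 1) j i)).card ≤
          (univ.filter (fun j => p (a + b) j i ≠ p (a + b + 1) j i)).card := card_image_le
    have h4 : kap p i (a + (b + 1)) = kap p i (a + b) +
        (univ.filter (fun j => p (a + b) j i ≠ p (a + b + 1) j i)).card := rfl
    omega

lemma exists_free (hn : 3 * k ≤ n) (i : Fin d) (a b : ℕ) (hab : a ≤ b)
    (h : kap p i b < kap p i a + 2 * k) :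
    ∃ v : Fin n, ∀ t, a ≤ t → t ≤ b → ∀ j, p t j i ≠ v := by
  have h1 := occ_card p i a (b - a)
  rw [show a + (b - a) = b by omega] at h1
  have h2 : (occ p i a b).card < n := by omega
  have h3 : ∃ v, v ∉ occ p i a b := by
    by_contra hcon
    push Not at hcon
    have : occ p i a b = univ := by
      ext v; simp [hcon v]
    rw [this, card_univ, Fintype.card_fin] at h2
    omega
  obtain ⟨v, hv⟩ := h3
  refine ⟨v, ?_⟩
  intro t ht1 ht2 j hj
  apply hv
  unfold occ
  rw [mem_biUnion]
  refine ⟨t, by rw [mem_Icc]; exact ⟨ht1, ht2⟩, ?_⟩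
  rw [mem_image]
  exact ⟨j, mem_univ _, hj⟩

lemma robber_path (hk : 0 < k) (hn : 3 * k ≤ n)
    (hp : ∀ t j, hammingDist (p t j) (p (t + 1) j) ≤ 1) (T : ℕ) :
    ∃ x : ℕ → (Fin d → Fin n), (∀ t, hammingDist (x t) (x (t + 1)) ≤ 1) ∧
      ∀ t ≤ T, ∀ j i, p t j i ≠ x t i ∧ p (t + 1) j i ≠ x t i := by
  classical
  obtain ⟨M, τ, h0, hinc, hL, hgap, hlast, hinj⟩ := exists_schedule d k (T + 1) hk (kap p)
    (kap_mono p) (fun i => rfl) (by
      intro t
      have h1 : ∀ i, kap p i (t + 1) - kap p i t =
          (univ.filter (fun j => p t j i ≠ p (t + 1) j i)).card := by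
        intro i
        show kap p i t + _ - kap p i t = _
        omega
      rw [sum_congr rfl (fun i _ => h1 i)]
      have h2 : ∑ i : Fin d, (univ.filter (fun j => p t j i ≠ p (t + 1) j i)).card =
          ∑ j : Fin k, (univ.filter (fun i => p t j i ≠ p (t + 1) j i)).card := by
        simp only [card_filter]
        exact sum_comm
      rw [h2]
      calc ∑ j : Fin k, (univ.filter (fun i => p t j i ≠ p (t + 1) j i)).card
          ≤ ∑ j : Fin k, 1 := sum_le_sum (fun j _ => hp t j)
        _ = k := by simp)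
  -- end of the interval
  let nxt : Fin d → ℕ → ℕ := fun i m => if m < M i then τ i (m + 1) else T + 1
  have hfree : ∀ i m, m ≤ M i → ∃ v : Fin n, ∀ t, τ i m ≤ t → t ≤ nxt i m →
      ∀ j, p t j i ≠ v := by
    intro i m hm
    rcases Nat.lt_or_ge m (M i) with h | h
    · have h1 : nxt i m = τ i (m + 1) := if_pos h
      rw [h1]
      exact exists_free p hn i _ _ (hinc i m h).le (hgap i m h)
    · have h1 : nxt i m = T + 1 := if_neg (by omega)
      rw [h1]
      have h2 : m = M i := by omega
      rw [h2]
      apply exists_free p hn i _ _ ?_ (hlast i)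
      rcases Nat.eq_zero_or_pos (M i) with h3 | h3
      · rw [h3, h0]; omega
      · exact (hL i (M i) h3 le_rfl).le
  have hfree' : ∀ i m, ∃ v : Fin n, m ≤ M i → ∀ t, τ i m ≤ t → t ≤ nxt i m →
      ∀ j, p t j i ≠ v := by
    intro i m
    by_cases hm : m ≤ M i
    · obtain ⟨v, hv⟩ := hfree i m hm
      exact ⟨v, fun _ => hv⟩
    · exact ⟨⟨0, by omega⟩, fun h => absurd h hm⟩
  choose v hv using hfree'
  let idx : Fin d → ℕ → ℕ := fun i t => Nat.findGreatest (fun m => τ i m ≤ t) (M i)
  have hidx1 : ∀ i t, idx i t ≤ M i := fun i t => Nat.findGreatest_le _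
  have hidx2 : ∀ i t, τ i (idx i t) ≤ t := by
    intro i t
    exact Nat.findGreatest_spec (P := fun m => τ i m ≤ t) (m := 0) (Nat.zero_le _)
      (by rw [h0]; exact Nat.zero_le _)
  have hidx3 : ∀ i t m, idx i t < m → m ≤ M i → t < τ i m := by
    intro i t m h1 h2
    have := Nat.findGreatest_is_greatest h1 h2
    omega
  refine ⟨fun t i => v i (idx i t), ?_, ?_⟩
  · intro t
    -- at most one coordinate changes
    unfold hammingDist
    rw [card_le_one]
    intro i hi i' hi'
    rw [mem_filter] at hi hi'
    have key : ∀ i, v i (idx i t) ≠ v i (idx i (t + 1)) →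
        1 ≤ idx i (t + 1) ∧ τ i (idx i (t + 1)) = t + 1 := by
      intro i hne
      have h1 : idx i t ≠ idx i (t + 1) := fun h => hne (by rw [h])
      have h2 : idx i t ≤ idx i (t + 1) := by
        by_contra hcon
        push Not at hcon
        have h3 := hidx3 i (t + 1) (idx i t) hcon (hidx1 i t)
        have h4 := hidx2 i t
        omega
      have h3 := hidx3 i t (idx i (t + 1)) (by omega) (hidx1 i (t + 1))
      have h4 := hidx2 i (t + 1)
      omega
    have h1 := key i hi.2
    have h2 := key i' hi'.2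
    exact hinj i i' _ _ h1.1 (hidx1 i _) h2.1 (hidx1 i' _) (h1.2.trans h2.2.symm)
  · intro t ht j i
    have h1 : t + 1 ≤ nxt i (idx i t) := by
      by_cases h : idx i t < M i
      · have h2 : nxt i (idx i t) = τ i (idx i t + 1) := if_pos h
        rw [h2]
        exact hidx3 i t _ (Nat.lt_succ_self _) h
      · have h2 : nxt i (idx i t) = T + 1 := if_neg h
        rw [h2]; omega
    have h2 := hv i (idx i t) (hidx1 i t)
    exact ⟨h2 t (hidx2 i t) (by omega) j, h2 (t + 1) ((hidx2 i t).trans (by omega)) h1 j⟩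

end Robber

lemma hamming_le_length {d n : ℕ} {x y : Fin d → Fin n} (w : (H d n).Walk x y) :
    hammingDist x y ≤ w.length := by
  induction w with
  | nil => simp
  | @cons a b c h w ih =>
    rw [SimpleGraph.Walk.length_cons]
    have h2 := hammingDist_triangle a b c
    have h1 : hammingDist a b = 1 := h
    omega

lemma step_iff {d n : ℕ} (x y : Fin d → Fin n) : Step (H d n) x y ↔ hammingDist x y ≤ 1 := by
  unfold Step
  constructor
  · rintro (h | h)
    · rw [h, hammingDist_self]; omega
    · exact le_of_eq h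
  · intro h
    rcases Nat.lt_or_ge (hammingDist x y) 1 with h1 | h1
    · left
      exact hammingDist_eq_zero.1 (by omega)
    · right
      exact le_antisymm h h1

/-- **Lower bound.** If `3 k ≤ n` then `k` cops cannot guarantee to see the robber. -/
theorem not_copsWin (d n k : ℕ) (hd : 1 ≤ d) (hn1 : 1 ≤ n) (hn : 3 * k ≤ n) :
    ¬ CopsWin (H d n) (d - 1) k := by
  rintro ⟨p, hp, T, hT⟩
  rcases Nat.eq_zero_or_pos k with rfl | hk
  · obtain ⟨t, -, j, -⟩ := hT (fun _ _ => ⟨0, by omega⟩) (fun t => Or.inl rfl)
    exact j.elim0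
  · obtain ⟨x, hx, hx2⟩ := robber_path p hk hn (fun t j => (step_iff _ _).1 (hp t j)) T
    obtain ⟨t, ht, j, h⟩ := hT x (fun t => (step_iff _ _).2 (hx t))
    have key : ∀ q : Fin d → Fin n, (∀ i, q i ≠ x t i) → ¬ Near (H d n) (d - 1) q (x t) := by
      rintro q hq ⟨w, hw⟩
      have h1 := hamming_le_length w
      have h2 : hammingDist q (x t) = d := by
        unfold hammingDist
        rw [filter_true_of_mem (fun i _ => hq i), card_univ, Fintype.card_fin]
      omega
    rcases h with h | h
    · exact key _ (fun i => (hx2 t ht j i).1) h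
    · exact key _ (fun i => (hx2 t ht j i).2) h

/-- The search number exceeds `n / 3`. -/
theorem lt_searchNumber (d n : ℕ) (hd : 1 ≤ d) (hn1 : 1 ≤ n) :
    n < 3 * searchNumber (H d n) (d - 1) := by
  have hne : {k : ℕ | CopsWin (H d n) (d - 1) k}.Nonempty := by
    refine ⟨Fintype.card (Fin d → Fin n), fun _ j => (Fintype.equivFin _).symm j,
      fun _ _ => Or.inl rfl, 0, ?_⟩
    intro x _
    refine ⟨0, le_rfl, Fintype.equivFin _ (x 0), Or.inl ?_⟩
    show Near (H d n) (d - 1) ((Fintype.equivFin (Fin d → Fin n)).symm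
      (Fintype.equivFin (Fin d → Fin n) (x 0))) (x 0)
    rw [Equiv.symm_apply_apply]
    exact ⟨SimpleGraph.Walk.nil, by simp⟩
  have h1 : CopsWin (H d n) (d - 1) (searchNumber (H d n) (d - 1)) := Nat.sInf_mem hne
  by_contra hcon
  push Not at hcon
  exact not_copsWin d n _ hd hn1 hcon h1

/-- **Limited-visibility search on Hamming graphs.** For all `d, n ≥ 1`, no `k ≤ n / 3` cops can
guarantee to see the robber in the `(d-1)`-visibility game on `H(d,n)`; so the search number
`c'_{d-1}(H(d,n))` is larger than `n / 3`, and for every `d ≥ 3` it is not `(1+o(1)) n / (d+1)`: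
the conjecture is false. -/
theorem result :
    (∀ d n k : ℕ, 1 ≤ d → 1 ≤ n → 3 * k ≤ n → ¬ CopsWin (H d n) (d - 1) k) ∧
    (∀ d n : ℕ, 1 ≤ d → 1 ≤ n → n < 3 * searchNumber (H d n) (d - 1)) ∧
    (∀ d : ℕ, 3 ≤ d → ¬ Filter.Tendsto
      (fun n : ℕ => (searchNumber (H d n) (d - 1) : ℝ) * (d + 1) / n) Filter.atTop (nhds 1)) := by
  refine ⟨fun d n k => not_copsWin d n k, fun d n => lt_searchNumber d n, ?_⟩
  intro d hd hlim
  have h1 : ∀ᶠ n : ℕ in Filter.atTop,
      (searchNumber (H d n) (d - 1) : ℝ) * (d + 1) / n < 4 / 3 :=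
    hlim.eventually_lt_const (by norm_num)
  obtain ⟨n, hn, hn1⟩ := (h1.and (Filter.eventually_ge_atTop 1)).exists
  have h2 := lt_searchNumber d n (by omega) hn1
  have h3 : (n : ℝ) < 3 * (searchNumber (H d n) (d - 1) : ℝ) := by exact_mod_cast h2
  have h4 : (0 : ℝ) < n := by exact_mod_cast hn1
  rw [div_lt_iff₀ h4] at hn
  have h5 : (3 : ℝ) ≤ d := by exact_mod_cast hd
  nlinarith

end Pool.Agent.Results.MP_b85c6a_co.Hamming
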